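import Mathlib

namespace Pool.Agent.Results.MP_405fb9_co.Wagner

/-- `D` is a dominating set of `H`. -/
def Dom {V : Type} (H : SimpleGraph V) (D : Finset V) : Prop :=
  ∀ x, x ∉ D → ∃ y ∈ D, H.Adj x y

noncomputable def gam {V : Type} (H : SimpleGraph V) : ℕ := sInf {k | ∃ D, Dom H D ∧ D.card = k}

def GammaSet {V : Type} (H : SimpleGraph V) (D : Finset V) : Prop := Dom H D ∧ D.card = gam H

def HypoUD {V : Type} (G : SimpleGraph V) : Prop :=
  (∃ D₁ D₂, D₁ ≠ D₂ ∧ GammaSet G D₁ ∧ GammaSet G D₂) ∧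
    ∀ v : V, ∃! D, GammaSet (G.induce ({v}ᶜ : Set V)) D

def Bicritical {V : Type} (G : SimpleGraph V) : Prop :=
  ∀ S : Finset V, S.card = 2 → gam (G.induce ((S : Set V)ᶜ)) < gam G

def G : SimpleGraph (Fin 8) where
  Adj a b := b = a + 1 ∨ a = b + 1 ∨ b = a + 4
  symm := ⟨by decide⟩
  loopless := ⟨by decide⟩

instance : DecidableRel G.Adj := fun _ _ => inferInstanceAs (Decidable (_ ∨ _))

theorem g3 : gam G = 3 := by
  have h0 : Dom G {0, 2, 5} := by unfold Dom; decide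
  have h1 : gam G ≤ 3 := Nat.sInf_le ⟨_, h0, by decide⟩
  obtain ⟨D, hD, hk⟩ := Nat.sInf_mem (s := {k | ∃ D, Dom G D ∧ D.card = k}) ⟨_, _, h0, rfl⟩
  have : ∀ E : Finset (Fin 8), (∀ x, x ∉ E → ∃ y ∈ E, G.Adj x y) → 3 ≤ E.card := by decide +kernel
  have := this D hD
  unfold gam at *
  omega

theorem sub (T : Set (Fin 8)) [DecidablePred (· ∈ T)] (E : Finset (Fin 8)) (hE : ∀ x ∈ E, x ∈ T)
    (hd : ∀ x ∈ T, x ∉ E → ∃ y ∈ E, G.Adj x y) :
    Dom (G.induce T) (E.subtype (· ∈ T)) ∧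
      (E.subtype (· ∈ T)).map (Function.Embedding.subtype _) = E := by
  refine ⟨fun x hx => ?_, Finset.subtype_map_of_mem hE⟩
  obtain ⟨y, hy, ha⟩ := hd x.1 x.2 (fun h => hx (Finset.mem_subtype.2 h))
  exact ⟨⟨y, hE y hy⟩, Finset.mem_subtype.2 hy, ha⟩

theorem key (v : Fin 8) (D : Finset ({v}ᶜ : Set (Fin 8))) (hc : D.card ≤ 2)
    (hd : Dom (G.induce ({v}ᶜ : Set (Fin 8))) D) :
    D.map (Function.Embedding.subtype _) = {v + 3, v + 5} ∨ False := by
  have uniq : ∀ (v : Fin 8) (E : Finset (Fin 8)), E.card ≤ 2 → v ∉ E →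
      (∀ x, x ≠ v → x ∉ E → ∃ y ∈ E, G.Adj x y) → E = {v + 3, v + 5} := by decide +kernel
  refine Or.inl (uniq v _ (by simpa using hc) ?_ fun x hx hn => ?_)
  · intro h
    obtain ⟨y, -, hy⟩ := Finset.mem_map.1 h
    exact y.2 hy
  · obtain ⟨y, hy, ha⟩ := hd ⟨x, hx⟩ (fun h => hn (Finset.mem_map.2 ⟨_, h, rfl⟩))
    exact ⟨y.1, Finset.mem_map.2 ⟨_, hy, rfl⟩, ha⟩

theorem result : ∃ (n : ℕ) (G : SimpleGraph (Fin n)), 3 ≤ n ∧ Bicritical G ∧ HypoUD G := by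
  classical
  refine ⟨8, G, by norm_num, fun S hS => ?_, ⟨{0, 2, 5}, {1, 3, 6}, by decide, ⟨?_, ?_⟩, ⟨?_, ?_⟩⟩,
    fun v => ?_⟩
  · have : ∀ S : Finset (Fin 8), S.card = 2 → ∃ a b, a ∉ S ∧ b ∉ S ∧
        ∀ x, x ∉ S → x ≠ a → x ≠ b → G.Adj x a ∨ G.Adj x b := by decide +kernel
    obtain ⟨a, b, ha, hb, h⟩ := this S hS
    obtain ⟨h1, h2⟩ := sub ((S : Set (Fin 8))ᶜ) {a, b}
      (by intro x hx; rcases Finset.mem_insert.1 hx with rfl | hx
          · exact ha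
          · rw [Finset.mem_singleton.1 hx]; exact hb)
      (by intro x hx hn
          simp only [Finset.mem_insert, Finset.mem_singleton, not_or] at hn
          rcases h x hx hn.1 hn.2 with h | h
          · exact ⟨a, by simp, h⟩
          · exact ⟨b, by simp, h⟩)
    have h3 : gam (G.induce ((S : Set (Fin 8))ᶜ)) ≤ _ := Nat.sInf_le ⟨_, h1, rfl⟩
    have h4 := congrArg Finset.card h2
    rw [Finset.card_map] at h4
    have h5 : ({a, b} : Finset (Fin 8)).card ≤ 2 := Finset.card_le_two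
    rw [g3]
    omega
  · unfold Dom; decide
  · rw [g3]; decide
  · unfold Dom; decide
  · rw [g3]; decide
  · have hD : ∀ v : Fin 8, ({v + 3, v + 5} : Finset (Fin 8)).card = 2 ∧
        (∀ x ∈ ({v + 3, v + 5} : Finset (Fin 8)), x ≠ v) ∧
        ∀ x, x ≠ v → x ∉ ({v + 3, v + 5} : Finset (Fin 8)) →
          ∃ y ∈ ({v + 3, v + 5} : Finset (Fin 8)), G.Adj x y := by decide
    obtain ⟨h2, hv, hd⟩ := hD v
    obtain ⟨h1, hm⟩ := sub ({v}ᶜ : Set (Fin 8)) {v + 3, v + 5} hv hd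
    have hc := congrArg Finset.card hm
    rw [Finset.card_map, h2] at hc
    have hle : gam (G.induce ({v}ᶜ : Set (Fin 8))) ≤ 2 := Nat.sInf_le ⟨_, h1, hc⟩
    obtain ⟨D, hD, hk⟩ := Nat.sInf_mem
      (s := {k | ∃ D, Dom (G.induce ({v}ᶜ : Set (Fin 8))) D ∧ D.card = k}) ⟨_, _, h1, rfl⟩
    have hk' : D.card = gam (G.induce ({v}ᶜ : Set (Fin 8))) := hk
    have hg : gam (G.induce ({v}ᶜ : Set (Fin 8))) = 2 := by
      have := congrArg Finset.card ((key v D (by omega) hD).resolve_right id)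
      rw [Finset.card_map] at this
      omega
    refine ⟨_, ⟨h1, hc.trans hg.symm⟩, fun D' hD' => ?_⟩
    exact Finset.map_injective _
      (((key v D' (by rw [hD'.2, hg]) hD'.1).resolve_right id).trans hm.symm)

end Pool.Agent.Results.MP_405fb9_co.Wagner
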